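import Pool.Agent.R690.Kos.Fin

set_option autoImplicit false

/-!
# Betti numbers of powers of a monomial ideal across all primes

For every finite set of monomials in `n` variables with exponent vectors `G`, and every `i`, only
finitely many sequences `(β_i(I^h))_{h ≥ 1}` occur when the ideal `I` generated by these monomials is
read over the fields with `p` elements, `p` a prime.

Reason: the multigraded Betti numbers of a monomial ideal are the dimensions of the homology groups
of the upper Koszul complexes, which are simplicial complexes on `n` vertices. There are only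
finitely many such complexes, so there is one finite set of primes outside of which the ranks of
all boundary maps of all simplicial complexes on `n` vertices are the same as over the rationals.
-/

namespace Pool.Agent.Results.MP_f65b1b_al.FinitelyManySequences

open Pool.Agent.R690.Kos

/-- Outside of a finite set of primes depending only on the number `n` of variables, all powers of
all monomial ideals in `n` variables have the Betti numbers they have over the rationals. -/
theorem uniform (n : ℕ) : ∃ N : ℕ, N ≠ 0 ∧ ∀ (p : ℕ) [Fact p.Prime], ¬ p ∣ N →
    ∀ G : Set (Fin n →₀ ℕ), G.Finite → ∀ h i : ℕ,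
      betti (monIdeal (ZMod p) G ^ h) i = betti (monIdeal ℚ G ^ h) i := by
  obtain ⟨N, hN0, hN⟩ := exists_good n
  refine ⟨N, hN0, ?_⟩
  intro p hp hpN G hG h i
  have h1 : ((N : ℕ) : ZMod p) ≠ 0 := by
    rw [Ne, ZMod.natCast_eq_zero_iff]
    exact hpN
  rw [monIdeal_pow, monIdeal_pow]
  refine bettiIn_congr (ZMod p) (pw_finite hG h) i Set.univ fun a _ => ?_
  exact hm_congr (ZMod p) (Fc_down _ a) (fun j => hN (ZMod p) h1 _ j) i

/-- For every monomial ideal `I` (given by a finite set `G` of exponent vectors of generators, in
any number `n` of variables) and every `i`, the set of the sequences `(β_i(I^h))_{h ≥ 1}`, where `I`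
is read over the field with `p` elements and `p` runs through all primes, is finite. -/
theorem result (n : ℕ) (G : Set (Fin n →₀ ℕ)) (hG : G.Finite) (i : ℕ) :
    {s : ℕ → ℕ | ∃ (p : ℕ) (_ : Fact p.Prime),
      ∀ h : ℕ, s h = betti (monIdeal (ZMod p) G ^ (h + 1)) i}.Finite := by
  obtain ⟨N, hN0, hN⟩ := uniform n
  classical
  let f : ℕ → (ℕ → ℕ) := fun p => if hp : p.Prime then
    (haveI : Fact p.Prime := ⟨hp⟩; fun h => betti (monIdeal (ZMod p) G ^ (h + 1)) i) else 0
  refine ((N.divisors.finite_toSet.image f).union
    (Set.finite_singleton fun h => betti (monIdeal ℚ G ^ (h + 1)) i)).subset ?_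
  rintro s ⟨p, hp, hs⟩
  by_cases hpN : p ∣ N
  · left
    refine ⟨p, by simp [hpN, hN0], ?_⟩
    funext h
    rw [hs h]
    simp only [f, dif_pos hp.out]
  · right
    rw [Set.mem_singleton_iff]
    funext h
    rw [hs h]
    exact hN p hpN G hG (h + 1) i

end Pool.Agent.Results.MP_f65b1b_al.FinitelyManySequences
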